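import Mathlib

/-!
# Project SYM, piece D2: Legendre form
-/

set_option autoImplicit false

namespace Pool.Agent.Helper51.SYM

open Polynomial

universe u

/-- Over a field `B` of transcendence degree one, the algebraic closure of `B` is the algebraic
closure of `K(t)` for every `t` in it which is transcendental over `K`. -/
theorem isAlgebraic_iff {K E Ω : Type u} [Field K] [Field E] [Field Ω] [Algebra K E] [Algebra E Ω]
    [Algebra K Ω] [IsScalarTower K E Ω] (B : IntermediateField K E)
    (htr : Algebra.trdeg K B = 1) (t : Ω) (ht : Transcendental K t) (htB : IsAlgebraic B t)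
    (z : Ω) : IsAlgebraic B z ↔ IsAlgebraic (IntermediateField.adjoin K {t}) z := by
  constructor
  · intro hz
    set L := algebraicClosure B Ω with hL
    have : IsScalarTower K L Ω := IsScalarTower.of_algebraMap_eq fun w => rfl
    set tL : L := ⟨t, mem_algebraicClosure_iff.2 htB⟩ with htL
    set zL : L := ⟨z, mem_algebraicClosure_iff.2 hz⟩ with hzL
    have htt : Transcendental K tL := by
      intro h
      exact ht (h.algebraMap (A := Ω))
    have hind : AlgebraicIndependent K (fun _ : PUnit.{u + 1} => tL) :=
      algebraicIndependent_unique_type_iff.2 htt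
    have htrL : Algebra.trdeg K L = 1 := by
      have h1 := trdeg_add_eq K B (A := L)
      rw [htr, trdeg_eq_zero, add_zero] at h1
      exact h1.symm
    have hbas := hind.isTranscendenceBasis_of_trdeg_le_of_finite (by rw [htrL]; simp)
    have halg := hbas.isAlgebraic_field
    have hzz : IsAlgebraic (IntermediateField.adjoin K (Set.range fun _ : PUnit.{u + 1} => tL)) zL :=
      halg.isAlgebraic zL
    have hmem : ∀ w ∈ IntermediateField.adjoin K (Set.range fun _ : PUnit.{u + 1} => tL),
        algebraMap L Ω w ∈ IntermediateField.adjoin K {t} := by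
      intro w hw
      have hle : IntermediateField.adjoin K (Set.range fun _ : PUnit.{u + 1} => tL) ≤
          (IntermediateField.adjoin K {t}).comap (IsScalarTower.toAlgHom K L Ω) := by
        rw [IntermediateField.adjoin_le_iff]
        rintro _ ⟨_, rfl⟩
        exact IntermediateField.mem_adjoin_simple_self K t
      exact hle hw
    let f : IntermediateField.adjoin K (Set.range fun _ : PUnit.{u + 1} => tL) →+*
        IntermediateField.adjoin K {t} :=
      RingHom.codRestrict ((algebraMap L Ω).comp (algebraMap _ L)) (IntermediateField.adjoin K {t})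
        (fun w => hmem w w.2)
    exact hzz.ringHom_of_comp_eq (f := f) (g := algebraMap L Ω) f.injective (by ext w; rfl)
  · intro hz
    set L := algebraicClosure B Ω with hL
    have hle : IntermediateField.adjoin K {t} ≤ L.restrictScalars K := by
      rw [IntermediateField.adjoin_le_iff]
      rintro _ rfl
      exact mem_algebraicClosure_iff.2 htB
    let f : IntermediateField.adjoin K {t} →+* L :=
      RingHom.codRestrict (algebraMap (IntermediateField.adjoin K {t}) Ω) L
        (fun w => hle w.2)
    have h1 : IsAlgebraic L ((RingHom.id Ω) z) :=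
      hz.ringHom_of_comp_eq (f := f) (g := RingHom.id Ω) f.injective (by ext w; rfl)
    exact h1.restrictScalars B

/-- The roots of a depressed cubic. -/
theorem exists_roots {F : Type u} [Field F] [CharZero F] [IsAlgClosed F] (a b : F)
    (h : 4 * a ^ 3 + 27 * b ^ 2 ≠ 0) :
    ∃ e₁ e₂ e₃ : F, (∀ x : F, x ^ 3 + a * x + b = (x - e₁) * (x - e₂) * (x - e₃)) ∧
      e₁ + e₂ + e₃ = 0 ∧ a = e₁ * e₂ + e₂ * e₃ + e₁ * e₃ ∧ b = -(e₁ * e₂ * e₃) ∧
      e₁ ≠ e₂ ∧ e₁ ≠ e₃ ∧ e₂ ≠ e₃ := by
  obtain ⟨e, he⟩ := IsAlgClosed.exists_root (X ^ 3 + C a * X + C b : F[X]) (by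
    have : (X ^ 3 + C a * X + C b : F[X]).degree = 3 := by compute_degree!
    rw [this]; decide)
  have he' : e ^ 3 + a * e + b = 0 := by
    simpa [IsRoot] using he
  obtain ⟨d, hd⟩ := IsAlgClosed.exists_pow_nat_eq (-3 * e ^ 2 - 4 * a) (n := 2) (by norm_num)
  have h2 : (2 : F) ≠ 0 := two_ne_zero
  have hb : b = -(e ^ 3 + a * e) := by linear_combination he'
  have ha : a = e * ((-e + d) / 2) + (-e + d) / 2 * ((-e - d) / 2) + e * ((-e - d) / 2) := by
    field_simp
    linear_combination hd
  have hbb : b = -(e * ((-e + d) / 2) * ((-e - d) / 2)) := by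
    rw [hb]
    field_simp
    linear_combination (-e) * hd
  have hdisc : 4 * a ^ 3 + 27 * b ^ 2 = -((e - (-e + d) / 2) * (e - (-e - d) / 2) *
      ((-e + d) / 2 - (-e - d) / 2)) ^ 2 := by
    rw [hbb, ha]
    field_simp
    ring
  refine ⟨e, (-e + d) / 2, (-e - d) / 2, ?_, ?_, ha, hbb, ?_, ?_, ?_⟩
  · intro x
    rw [hbb, ha]
    field_simp
    ring
  · field_simp
    ring
  · intro h'
    exact h (by rw [hdisc, ← h']; ring)
  · intro h'
    exact h (by rw [hdisc, ← h']; ring)
  · intro h'
    exact h (by rw [hdisc, ← h']; ring)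

/-- D2: Legendre form. The hypothesis `h` is the definition of `GenusLeOne B`. -/
theorem legendre_data {K E : Type u} [Field K] [CharZero K] [Field E] [Algebra K E]
    (B : IntermediateField K E) (htr : Algebra.trdeg K B = 1)
    (h : ∃ (x y : AlgebraicClosure E) (a b : algebraicClosure B (AlgebraicClosure E)),
      Transcendental B x ∧ y ^ 2 = x ^ 3 + a * x + b ∧ 4 * a ^ 3 + 27 * b ^ 2 ≠ 0 ∧
      ∀ e : E, algebraMap E (AlgebraicClosure E) e ∈
        IntermediateField.adjoin (algebraicClosure B (AlgebraicClosure E)) {x, y}) :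
    ∃ (t x y : AlgebraicClosure E) (Λ : (algebraicClosure K (AlgebraicClosure E))[X]),
      Transcendental K t ∧ Λ ≠ 0 ∧ Λ ≠ 1 ∧
      Transcendental (IntermediateField.adjoin K {t}) x ∧
      y ^ 2 = x * (x - 1) * (x - aeval t Λ) ∧
      ∀ e : E, algebraMap E (AlgebraicClosure E) e ∈ IntermediateField.adjoin
        (algebraicClosure (IntermediateField.adjoin K {t}) (AlgebraicClosure E)) {x, y} := by
  obtain ⟨x, y, a, b, hx, hxy, hab, hE⟩ := h
  have : CharZero E := charZero_of_injective_algebraMap (algebraMap K E).injective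
  have : CharZero (AlgebraicClosure E) :=
    charZero_of_injective_algebraMap (algebraMap E (AlgebraicClosure E)).injective
  have : CharZero (algebraicClosure B (AlgebraicClosure E)) :=
    charZero_of_injective_ringHom
      (algebraMap K (algebraicClosure B (AlgebraicClosure E))).injective
  have : IsAlgClosed (algebraicClosure B (AlgebraicClosure E)) :=
    (algebraicClosure.isAlgClosure B (AlgebraicClosure E)).isAlgClosed
  obtain ⟨e₁, e₂, e₃, -, hs, ha, hb, h12, h13, h23⟩ := exists_roots a b hab
  obtain ⟨u, hu⟩ := IsAlgClosed.exists_pow_nat_eq ((e₂ - e₁) ^ 3) (n := 2) (by norm_num)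
  have h21 : e₂ - e₁ ≠ 0 := sub_ne_zero.2 (Ne.symm h12)
  have h31 : e₃ - e₁ ≠ 0 := sub_ne_zero.2 (Ne.symm h13)
  have hu0 : u ≠ 0 := by
    intro h0
    rw [h0] at hu
    exact h21 (pow_eq_zero_iff (n := 3) (by norm_num) |>.1 (by rw [← hu]; ring))
  set lam : algebraicClosure B (AlgebraicClosure E) := (e₃ - e₁) / (e₂ - e₁) with hlam
  have hlam0 : lam ≠ 0 := div_ne_zero h31 h21
  have hlam1 : lam ≠ 1 := by
    intro h1
    rw [hlam, div_eq_one_iff_eq h21] at h1
    exact h23 (by linear_combination -h1)
  -- everything in the big field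
  have ha' : (a : AlgebraicClosure E) = e₁ * e₂ + e₂ * e₃ + e₁ * e₃ := by rw [ha]; push_cast; rfl
  have hb' : (b : AlgebraicClosure E) = -(e₁ * e₂ * e₃) := by rw [hb]; push_cast; rfl
  have hs' : (e₁ : AlgebraicClosure E) + e₂ + e₃ = 0 := by
    have := congrArg (fun w : algebraicClosure B (AlgebraicClosure E) => (w : AlgebraicClosure E)) hs
    simpa using this
  have hu' : (u : AlgebraicClosure E) ^ 2 = (e₂ - e₁) ^ 3 := by
    have := congrArg (fun w : algebraicClosure B (AlgebraicClosure E) => (w : AlgebraicClosure E)) hu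
    simpa using this
  have hlam' : (lam : AlgebraicClosure E) = (e₃ - e₁) / (e₂ - e₁) := by rw [hlam]; push_cast; rfl
  have h21' : (e₂ : AlgebraicClosure E) - e₁ ≠ 0 := by
    intro h0
    exact h21 (Subtype.ext (by push_cast; exact h0))
  have hu0' : (u : AlgebraicClosure E) ≠ 0 := by
    intro h0
    exact hu0 (Subtype.ext h0)
  have hxx : x = (e₂ - e₁) * ((x - e₁) / (e₂ - e₁)) + e₁ := by
    field_simp
    ring
  have hyy : y = u * (y / u) := by
    field_simp
  have key : ∀ (t : AlgebraicClosure E) (Λ : (algebraicClosure K (AlgebraicClosure E))[X]),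
      Transcendental K t → IsAlgebraic B t → Λ ≠ 0 → Λ ≠ 1 → aeval t Λ = (lam : AlgebraicClosure E) →
      ∃ (t x y : AlgebraicClosure E) (Λ : (algebraicClosure K (AlgebraicClosure E))[X]),
      Transcendental K t ∧ Λ ≠ 0 ∧ Λ ≠ 1 ∧
      Transcendental (IntermediateField.adjoin K {t}) x ∧
      y ^ 2 = x * (x - 1) * (x - aeval t Λ) ∧
      ∀ e : E, algebraMap E (AlgebraicClosure E) e ∈ IntermediateField.adjoin
        (algebraicClosure (IntermediateField.adjoin K {t}) (AlgebraicClosure E)) {x, y} := by
    intro t Λ ht htB hΛ0 hΛ1 hΛ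
    have hiff := isAlgebraic_iff B htr t ht htB
    refine ⟨t, (x - e₁) / (e₂ - e₁), y / u, Λ, ht, hΛ0, hΛ1, ?_, ?_, ?_⟩
    · intro halg
      rw [← hiff] at halg
      have h1 : (x - e₁) / (e₂ - e₁) ∈ algebraicClosure B (AlgebraicClosure E) :=
        mem_algebraicClosure_iff.2 halg
      have h2 : x ∈ algebraicClosure B (AlgebraicClosure E) := by
        rw [hxx]
        exact add_mem (mul_mem (sub_mem e₂.2 e₁.2) h1) e₁.2
      exact hx (mem_algebraicClosure_iff.1 h2)
    · have h1 : y ^ 2 = (x - e₁) * (x - e₂) * (x - e₃) := by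
        rw [hxy, ha', hb']
        linear_combination x ^ 2 * hs'
      rw [hΛ, hlam', div_pow, h1, hu']
      field_simp
      ring
    · intro e
      set F := IntermediateField.adjoin
        (algebraicClosure (IntermediateField.adjoin K {t}) (AlgebraicClosure E))
        {(x - e₁) / (e₂ - e₁), y / u} with hF
      have hLF : ∀ w : algebraicClosure B (AlgebraicClosure E), (w : AlgebraicClosure E) ∈ F := by
        intro w
        have h1 : (w : AlgebraicClosure E) ∈
            algebraicClosure (IntermediateField.adjoin K {t}) (AlgebraicClosure E) :=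
          mem_algebraicClosure_iff.2 ((hiff _).1 (mem_algebraicClosure_iff.1 w.2))
        exact F.algebraMap_mem ⟨_, h1⟩
      have hxF : x ∈ F := by
        rw [hxx]
        refine add_mem (mul_mem (sub_mem (hLF e₂) (hLF e₁)) ?_) (hLF e₁)
        exact IntermediateField.subset_adjoin _ _ (Set.mem_insert _ _)
      have hyF : y ∈ F := by
        rw [hyy]
        refine mul_mem (hLF u) ?_
        exact IntermediateField.subset_adjoin _ _ (Set.mem_insert_of_mem _ rfl)
      let S : IntermediateField (algebraicClosure B (AlgebraicClosure E)) (AlgebraicClosure E) :=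
        F.toSubfield.toIntermediateField (fun w => hLF w)
      have hle : IntermediateField.adjoin (algebraicClosure B (AlgebraicClosure E)) {x, y} ≤ S := by
        rw [IntermediateField.adjoin_le_iff]
        rintro w (rfl | rfl)
        · exact hxF
        · exact hyF
      exact hle (hE e)
  by_cases htl : Transcendental K (lam : AlgebraicClosure E)
  · refine key lam X htl (mem_algebraicClosure_iff.1 lam.2) X_ne_zero ?_ (aeval_X _)
    intro h1
    have := congrArg natDegree h1
    simp at this
  · have hal : IsAlgebraic K (lam : AlgebraicClosure E) := not_not.1 htl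
    have hc : (lam : AlgebraicClosure E) ∈ algebraicClosure K (AlgebraicClosure E) :=
      mem_algebraicClosure_iff.2 hal
    have htrB : Algebra.Transcendental K B := by
      rw [← trdeg_ne_zero_iff, htr]
      exact one_ne_zero
    obtain ⟨t₀, ht₀⟩ := htrB.transcendental
    refine key (algebraMap B (AlgebraicClosure E) t₀)
      (C (⟨_, hc⟩ : algebraicClosure K (AlgebraicClosure E))) ?_ (isAlgebraic_algebraMap t₀) ?_ ?_ ?_
    · exact (transcendental_algebraMap_iff (algebraMap B (AlgebraicClosure E)).injective).2 ht₀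
    · rw [Ne, C_eq_zero]
      intro h0
      have h1 : (lam : AlgebraicClosure E) = 0 := congrArg Subtype.val h0
      exact hlam0 (Subtype.ext h1)
    · rw [Ne, ← C_1, C_inj]
      intro h0
      have h1 : (lam : AlgebraicClosure E) = 1 := congrArg Subtype.val h0
      exact hlam1 (Subtype.ext h1)
    · rw [aeval_C]
      rfl

end Pool.Agent.Helper51.SYM
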